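import Pool.Agent.W128.PP.Level

set_option autoImplicit false
set_option linter.unusedSectionVars false
set_option linter.unnecessarySimpa false

namespace Pool.Agent.W128.PP

open Classical Finset

variable {V : Type} [Fintype V] {G : SimpleGraph V} {w : V → ℕ}

/-- a model of the complete graph on `t` vertices -/
def KModel (G : SimpleGraph V) (t : ℕ) : Prop :=
  ∃ f : Fin t → Finset V, (∀ i, Conn G (f i)) ∧ (∀ i j, i ≠ j → Disjoint (f i) (f j)) ∧
    (∀ i j, i ≠ j → ∃ u ∈ f i, ∃ v ∈ f j, G.Adj u v)

/-- the configurations of the Alon-Seymour-Thomas argument -/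
structure Cfg (G : SimpleGraph V) (w : V → ℕ) (P k : ℕ) (C Y : Fin k → Finset V) (U : Finset V) :
    Prop where
  conn : ∀ i, Conn G (C i)
  disj : ∀ i j, i ≠ j → Disjoint (C i) (C j)
  adj : ∀ i j, i ≠ j → ∃ a ∈ C i, ∃ b ∈ C j, G.Adj a b
  sub : ∀ i, Y i ⊆ C i
  cst : ∀ i, cost w (Y i) ≤ P
  dU : ∀ i, Disjoint U (C i)
  connU : Conn G U
  closed : Cl G U (Finset.univ.biUnion Y)
  big : Fintype.card V < 2 * U.card

lemma meet_of_big {U W : Finset V} (h1 : Fintype.card V < 2 * U.card)
    (h2 : Fintype.card V < 2 * W.card) : ∃ a ∈ W, a ∈ U := by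
  by_contra hcon
  push Not at hcon
  have hd : Disjoint W U := Finset.disjoint_left.2 hcon
  have := Finset.card_le_univ (W ∪ U)
  rw [Finset.card_union_of_disjoint hd] at this
  omega

theorem covey_step (hw : ∀ v, 1 ≤ w v) (cut : CutCond G w) (hV : 0 < Fintype.card V)
    (t P r : ℕ) (ht : 0 < t) (hr : 0 < r) (h1 : 5 * ((t + 1) * P) ≤ Fintype.card V)
    (h2 : ∀ v, t * r + w v ≤ P) (h3 : t * ∑ v, w v ^ 2 ≤ r * P) :
    ∀ (N k : ℕ) (C Y : Fin k → Finset V) (U : Finset V), Cfg G w P k C Y U → k < t →
      U.card * (t + 1) + k = N → KModel G t := by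
  intro N
  induction N using Nat.strong_induction_on with
  | _ N ih =>
  intro k C Y U hcfg hk hN
  by_cases hdrop : ∃ i, ∀ c ∈ C i, ∀ u ∈ U, ¬ G.Adj c u
  · -- drop a set without neighbours in `U`
    obtain ⟨i, hi⟩ := hdrop
    obtain ⟨k', rfl⟩ : ∃ k', k = k' + 1 := by
      have := i.isLt
      exact ⟨k - 1, by omega⟩
    refine ih (U.card * (t + 1) + k') (by omega) k' (fun j => C (i.succAbove j))
      (fun j => Y (i.succAbove j)) U ?_ (by omega) rfl
    refine ⟨fun j => hcfg.conn _, fun j l hjl => hcfg.disj _ _ (fun e => hjl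
      (Fin.succAbove_right_injective e)), fun j l hjl => hcfg.adj _ _ (fun e => hjl
      (Fin.succAbove_right_injective e)), fun j => hcfg.sub _, fun j => hcfg.cst _,
      fun j => hcfg.dU _, hcfg.connU, ?_, hcfg.big⟩
    intro u hu v hv huv
    have := hcfg.closed u hu v hv huv
    rw [Finset.mem_biUnion] at this ⊢
    obtain ⟨j, -, hj⟩ := this
    by_cases hji : j = i
    · subst hji
      exact absurd huv.symm (hi v (hcfg.sub _ hj) u hu)
    · obtain ⟨j', rfl⟩ := Fin.exists_succAbove_eq hji
      exact ⟨j', Finset.mem_univ _, hj⟩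
  push Not at hdrop
  set A : Fin k → Finset V := fun i => U.filter (fun u => ∃ c ∈ C i, G.Adj c u) with hA
  have hmemA : ∀ i u, u ∈ A i ↔ u ∈ U ∧ ∃ c ∈ C i, G.Adj c u := by
    intro i u
    rw [hA, Finset.mem_filter]
  have hAU : ∀ i, A i ⊆ U := fun i => Finset.filter_subset _ _
  have hAne : ∀ i, (A i).Nonempty := by
    intro i
    obtain ⟨c, hc, u, hu, hcu⟩ := hdrop i
    exact ⟨u, (hmemA i u).2 ⟨hu, c, hc, hcu⟩⟩
  choose Z D hZU hZc hAD hDcl hDT using fun i => exists_level (G := G) (w := w) (hAU i) r hr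
  set ZZ : Finset V := Finset.univ.biUnion Z with hZZ
  set X : Finset V := Finset.univ.biUnion Y with hX
  have hZZU : ZZ ⊆ U := by
    intro z hz
    rw [hZZ, Finset.mem_biUnion] at hz
    obtain ⟨i, -, hi⟩ := hz
    exact hZU i hi
  have hZZc : cost w ZZ ≤ P := by
    have e1 : cost w ZZ ≤ ∑ i, cost w (Z i) := cost_biUnion_le _ _
    have e2 : r * cost w ZZ ≤ k * ∑ v, w v ^ 2 := by
      calc r * cost w ZZ ≤ r * ∑ i, cost w (Z i) := Nat.mul_le_mul_left _ e1
        _ = ∑ i : Fin k, r * cost w (Z i) := Finset.mul_sum _ _ _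
        _ ≤ ∑ i : Fin k, ∑ v, w v ^ 2 := Finset.sum_le_sum (fun i _ => hZc i)
        _ = k * ∑ v, w v ^ 2 := by simp
    have e3 : r * cost w ZZ ≤ r * P :=
      e2.trans ((Nat.mul_le_mul_right _ hk.le).trans h3)
    exact Nat.le_of_mul_le_mul_left e3 hr
  have hXc : cost w X ≤ k * P := by
    refine (cost_biUnion_le _ _).trans ?_
    calc ∑ i, cost w (Y i) ≤ ∑ i : Fin k, P := Finset.sum_le_sum (fun i _ => hcfg.cst i)
      _ = k * P := by simp
  have hkP : k * P + P ≤ (t + 1) * P := by nlinarith
  have hkP' : (k + 1) * P ≤ (t + 1) * P := Nat.mul_le_mul_right _ (by omega)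
  obtain ⟨W, hWc, hWX, hWcl, hWb⟩ := exists_big hw cut hV (X ∪ ZZ) (by
    have := cost_union_le (w := w) X ZZ
    omega)
  rw [Finset.disjoint_union_right] at hWX
  have hWU : W ⊆ U := sub_of_closed hWc hWX.1 hcfg.closed (meet_of_big hcfg.big hWb)
  by_cases hcase : ∃ i, ∀ a ∈ A i, a ∉ W
  · -- replacement step
    obtain ⟨i, hi⟩ := hcase
    set R : Finset V := U.filter (fun v => ∃ T : Finset V, T ⊆ U ∧ Disjoint T W ∧ Conn G T ∧
      v ∈ T ∧ ∃ a ∈ A i, a ∈ T) with hR
    have hmemR : ∀ v, v ∈ R ↔ v ∈ U ∧ ∃ T : Finset V, T ⊆ U ∧ Disjoint T W ∧ Conn G T ∧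
      v ∈ T ∧ ∃ a ∈ A i, a ∈ T := by
      intro v
      rw [hR, Finset.mem_filter]
    have hRU : R ⊆ U := Finset.filter_subset _ _
    have hRW : Disjoint R W := by
      rw [Finset.disjoint_left]
      intro v hv hvW
      obtain ⟨-, T, -, hTW, -, hvT, -⟩ := (hmemR v).1 hv
      exact Finset.disjoint_left.1 hTW hvT hvW
    have hAR : A i ⊆ R := by
      intro a ha
      rw [hmemR]
      refine ⟨hAU i ha, {a}, Finset.singleton_subset_iff.2 (hAU i ha), ?_, conn_singleton a,
        Finset.mem_singleton_self a, a, ha, Finset.mem_singleton_self a⟩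
      rw [Finset.disjoint_singleton_left]
      exact hi a ha
    set Q : Finset V := R.filter (fun z => ∃ y ∈ W, G.Adj y z) with hQ
    have hQZ : Q ⊆ ZZ := by
      intro z hz
      rw [hQ, Finset.mem_filter] at hz
      obtain ⟨hzR, y, hy, hyz⟩ := hz
      have hzW : z ∉ W := fun h => Finset.disjoint_left.1 hRW hzR h
      rcases Finset.mem_union.1 (hWcl y hy z hzW hyz) with h | h
      · exfalso
        rw [hX, Finset.mem_biUnion] at h
        obtain ⟨j, -, hj⟩ := h
        exact Finset.disjoint_left.1 (hcfg.dU j) (hRU hzR) (hcfg.sub j hj)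
      · exact h
    set C' : Fin k → Finset V := Function.update C i (C i ∪ R) with hC'
    set Y' : Fin k → Finset V := Function.update Y i Q with hY'
    have hC'i : C' i = C i ∪ R := by rw [hC', Function.update_self]
    have hC'j : ∀ j, j ≠ i → C' j = C j := fun j hj => by rw [hC', Function.update_of_ne hj]
    have hY'i : Y' i = Q := by rw [hY', Function.update_self]
    have hY'j : ∀ j, j ≠ i → Y' j = Y j := fun j hj => by rw [hY', Function.update_of_ne hj]
    have hCC' : ∀ j, C j ⊆ C' j := by
      intro j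
      by_cases hj : j = i
      · subst hj
        rw [hC'i]
        exact Finset.subset_union_left
      · rw [hC'j j hj]
    have hRC : ∀ j, Disjoint R (C j) := fun j => Finset.disjoint_of_subset_left hRU (hcfg.dU j)
    have hcst' : ∀ j, cost w (Y' j) ≤ P := by
      intro j
      by_cases hj : j = i
      · subst hj
        rw [hY'i]
        exact (cost_mono hQZ).trans hZZc
      · rw [hY'j j hj]
        exact hcfg.cst j
    obtain ⟨U'', hU1, hU2, hU3, hU4⟩ := exists_big hw cut hV (Finset.univ.biUnion Y') (by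
      have e1 : cost w (Finset.univ.biUnion Y') ≤ k * P := by
        refine (cost_biUnion_le _ _).trans ?_
        calc ∑ j, cost w (Y' j) ≤ ∑ j : Fin k, P := Finset.sum_le_sum (fun j _ => hcst' j)
          _ = k * P := by simp
      omega)
    -- the set `U \ R` is closed
    have hcl : Cl G (U \ R) (Finset.univ.biUnion Y') := by
      intro u hu v hv huv
      rw [Finset.mem_sdiff] at hu
      rw [Finset.mem_biUnion]
      by_cases hvU : v ∈ U
      · have hvR : v ∈ R := by
          by_contra h
          exact hv (Finset.mem_sdiff.2 ⟨hvU, h⟩)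
        by_cases huW : u ∈ W
        · refine ⟨i, Finset.mem_univ _, ?_⟩
          rw [hY'i, hQ, Finset.mem_filter]
          exact ⟨hvR, u, huW, huv⟩
        · exfalso
          apply hu.2
          obtain ⟨-, T, hT1, hT2, hT3, hT4, a, haA, haT⟩ := (hmemR v).1 hvR
          rw [hmemR]
          refine ⟨hu.1, T ∪ {u}, ?_, ?_, ?_, ?_, a, haA, Finset.mem_union_left _ haT⟩
          · exact Finset.union_subset hT1 (Finset.singleton_subset_iff.2 hu.1)
          · rw [Finset.disjoint_union_left, Finset.disjoint_singleton_left]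
            exact ⟨hT2, huW⟩
          · exact conn_union_adj hT3 (conn_singleton u) hT4 (Finset.mem_singleton_self u) huv.symm
          · exact Finset.mem_union_right _ (Finset.mem_singleton_self u)
      · have := hcfg.closed u hu.1 v hvU huv
        rw [Finset.mem_biUnion] at this
        obtain ⟨j, -, hj⟩ := this
        by_cases hji : j = i
        · exfalso
          subst hji
          apply hu.2
          apply hAR
          rw [hmemA]
          exact ⟨hu.1, v, hcfg.sub _ hj, huv.symm⟩
        · exact ⟨j, Finset.mem_univ _, by rw [hY'j j hji]; exact hj⟩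
    have hWUR : W ⊆ U \ R := by
      intro y hy
      rw [Finset.mem_sdiff]
      exact ⟨hWU hy, fun h => Finset.disjoint_left.1 hRW h hy⟩
    have hU''sub : U'' ⊆ U \ R := by
      apply sub_of_closed hU1 hU2 hcl
      obtain ⟨a, ha1, ha2⟩ := meet_of_big hWb hU4
      exact ⟨a, ha1, hWUR ha2⟩
    have hlt : U''.card < U.card := by
      apply Finset.card_lt_card
      rw [Finset.ssubset_iff_of_subset (hU''sub.trans Finset.sdiff_subset)]
      obtain ⟨a, ha⟩ := hAne i
      refine ⟨a, hAU i ha, fun h => ?_⟩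
      exact (Finset.mem_sdiff.1 (hU''sub h)).2 (hAR ha)
    refine ih (U''.card * (t + 1) + k) ?_ k C' Y' U'' ?_ hk rfl
    · rw [← hN]
      have := Nat.mul_lt_mul_of_pos_right hlt (Nat.succ_pos t)
      simp only [Nat.succ_eq_add_one] at this
      omega
    refine ⟨?_, ?_, ?_, ?_, hcst', ?_, hU1, hU3, hU4⟩
    · intro j
      by_cases hj : j = i
      · subst hj
        rw [hC'i]
        obtain ⟨c, hc⟩ := (hcfg.conn j).ne
        apply conn_of_patches c (Finset.mem_union_left _ hc)
        intro v hv
        rcases Finset.mem_union.1 hv with hv | hv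
        · exact ⟨C j, Finset.subset_union_left, hc, hv, hcfg.conn j⟩
        · obtain ⟨-, T, hT1, hT2, hT3, hT4, a, haA, haT⟩ := (hmemR v).1 hv
          obtain ⟨-, b, hb, hba⟩ := (hmemA j a).1 haA
          refine ⟨C j ∪ T, ?_, Finset.mem_union_left _ hc, Finset.mem_union_right _ hT4,
            conn_union_adj (hcfg.conn j) hT3 hb haT hba⟩
          apply Finset.union_subset_union_right
          intro z hz
          rw [hmemR]
          exact ⟨hT1 hz, T, hT1, hT2, hT3, hz, a, haA, haT⟩
      · rw [hC'j j hj]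
        exact hcfg.conn j
    · have key : ∀ j, j ≠ i → Disjoint (C' i) (C' j) := by
        intro j hj
        rw [hC'i, hC'j j hj, Finset.disjoint_union_left]
        exact ⟨hcfg.disj i j hj.symm, hRC j⟩
      intro j l hjl
      by_cases hj : j = i
      · subst hj
        exact key l hjl.symm
      · by_cases hl : l = i
        · subst hl
          exact (key j hj).symm
        · rw [hC'j j hj, hC'j l hl]
          exact hcfg.disj j l hjl
    · intro j l hjl
      obtain ⟨a, ha, b, hb, hab⟩ := hcfg.adj j l hjl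
      exact ⟨a, hCC' j ha, b, hCC' l hb, hab⟩
    · intro j
      by_cases hj : j = i
      · subst hj
        rw [hC'i, hY'i]
        exact (Finset.filter_subset _ _).trans Finset.subset_union_right
      · rw [hC'j j hj, hY'j j hj]
        exact hcfg.sub j
    · intro j
      by_cases hj : j = i
      · subst hj
        rw [hC'i, Finset.disjoint_union_right]
        refine ⟨Finset.disjoint_of_subset_left (hU''sub.trans Finset.sdiff_subset) (hcfg.dU j), ?_⟩
        exact Finset.disjoint_of_subset_left hU''sub Finset.sdiff_disjoint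
      · rw [hC'j j hj]
        exact Finset.disjoint_of_subset_left (hU''sub.trans Finset.sdiff_subset) (hcfg.dU j)
  · -- extension step
    push Not at hcase
    have hWD : ∀ i, W ⊆ D i := by
      intro i
      obtain ⟨a, haA, haW⟩ := hcase i
      have hWZ : Disjoint W (Z i) := by
        rw [Finset.disjoint_left]
        intro y hy hyZ
        exact Finset.disjoint_left.1 hWX.2 hy (Finset.mem_biUnion.2 ⟨i, Finset.mem_univ _, hyZ⟩)
      refine sub_of_closed hWc ?_ (hDcl i) ⟨a, haW, ?_⟩
      · rw [Finset.disjoint_union_right]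
        refine ⟨hWZ, ?_⟩
        rw [Finset.disjoint_left]
        intro y hy hy2
        exact (Finset.mem_sdiff.1 hy2).2 (hWU hy)
      · rcases hAD i a haA with h | h
        · exact h
        · exact absurd h (Finset.disjoint_left.1 hWZ haW)
    obtain ⟨u, hu⟩ := hWc.ne
    choose T hT1 hT2 hT3 hT4 hT5 using fun i => hDT i u (hWD i hu)
    set TT : Finset V := {u} ∪ Finset.univ.biUnion T with hTT
    have huTT : u ∈ TT := Finset.mem_union_left _ (Finset.mem_singleton_self u)
    have hTTU : TT ⊆ U := by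
      apply Finset.union_subset (Finset.singleton_subset_iff.2 (hWU hu))
      intro z hz
      rw [Finset.mem_biUnion] at hz
      obtain ⟨i, -, hi⟩ := hz
      exact hT1 i hi
    have hTi : ∀ i, T i ⊆ TT := by
      intro i z hz
      exact Finset.mem_union_right _ (Finset.mem_biUnion.2 ⟨i, Finset.mem_univ _, hz⟩)
    have hTTconn : Conn G TT := by
      apply conn_of_patches u huTT
      intro v hv
      rcases Finset.mem_union.1 hv with hv | hv
      · rw [Finset.mem_singleton] at hv
        subst hv
        exact ⟨{v}, Finset.singleton_subset_iff.2 huTT, Finset.mem_singleton_self v,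
          Finset.mem_singleton_self v, conn_singleton v⟩
      · rw [Finset.mem_biUnion] at hv
        obtain ⟨i, -, hi⟩ := hv
        exact ⟨T i, hTi i, hT3 i, hi, hT2 i⟩
    have hTTc : cost w TT ≤ P := by
      have e1 : cost w TT ≤ cost w {u} + cost w (Finset.univ.biUnion T) := cost_union_le _ _
      have e2 : cost w {u} = w u := by simp [cost]
      have e3 : cost w (Finset.univ.biUnion T) ≤ k * r := by
        refine (cost_biUnion_le _ _).trans ?_
        calc ∑ i, cost w (T i) ≤ ∑ i : Fin k, r := Finset.sum_le_sum (fun i _ => hT5 i)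
          _ = k * r := by simp
      have e4 : k * r ≤ t * r := Nat.mul_le_mul_right _ hk.le
      have := h2 u
      omega
    set C' : Fin (k + 1) → Finset V := Fin.cons TT C with hC'
    set Y' : Fin (k + 1) → Finset V := Fin.cons TT Y with hY'
    have hC0 : C' 0 = TT := rfl
    have hCs : ∀ j, C' (Fin.succ j) = C j := fun j => rfl
    have hY0 : Y' 0 = TT := rfl
    have hYs : ∀ j, Y' (Fin.succ j) = Y j := fun j => rfl
    have hTC : ∀ j, Disjoint TT (C j) := fun j => Finset.disjoint_of_subset_left hTTU (hcfg.dU j)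
    have hTadj : ∀ j, ∃ a ∈ TT, ∃ b ∈ C j, G.Adj a b := by
      intro j
      obtain ⟨a, haA, haT⟩ := hT4 j
      obtain ⟨-, b, hb, hba⟩ := (hmemA j a).1 haA
      exact ⟨a, hTi j haT, b, hb, hba.symm⟩
    have hconn' : ∀ j, Conn G (C' j) := by
      intro j
      refine Fin.cases ?_ (fun j => ?_) j
      · exact hTTconn
      · exact hcfg.conn j
    have hdisj' : ∀ j l, j ≠ l → Disjoint (C' j) (C' l) := by
      intro j l
      refine Fin.cases ?_ (fun j => ?_) j <;> refine Fin.cases ?_ (fun l => ?_) l
      · intro h; exact absurd rfl h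
      · intro _; exact hTC l
      · intro _; exact (hTC j).symm
      · intro h; exact hcfg.disj j l (fun e => h (by rw [e]))
    have hadj' : ∀ j l, j ≠ l → ∃ a ∈ C' j, ∃ b ∈ C' l, G.Adj a b := by
      intro j l
      refine Fin.cases ?_ (fun j => ?_) j <;> refine Fin.cases ?_ (fun l => ?_) l
      · intro h; exact absurd rfl h
      · intro _; exact hTadj l
      · intro _
        obtain ⟨a, ha, b, hb, hab⟩ := hTadj j
        exact ⟨b, hb, a, ha, hab.symm⟩
      · intro h; exact hcfg.adj j l (fun e => h (by rw [e]))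
    by_cases hkt : k + 1 = t
    · subst hkt
      exact ⟨C', hconn', hdisj', hadj'⟩
    have hcst' : ∀ j, cost w (Y' j) ≤ P := by
      intro j
      refine Fin.cases ?_ (fun j => ?_) j
      · exact hTTc
      · exact hcfg.cst j
    obtain ⟨U'', hU1, hU2, hU3, hU4⟩ := exists_big hw cut hV (Finset.univ.biUnion Y') (by
      have e1 : cost w (Finset.univ.biUnion Y') ≤ (k + 1) * P := by
        refine (cost_biUnion_le _ _).trans ?_
        calc ∑ j, cost w (Y' j) ≤ ∑ j : Fin (k + 1), P := Finset.sum_le_sum (fun j _ => hcst' j)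
          _ = (k + 1) * P := by simp
      omega)
    have hXX' : X ⊆ Finset.univ.biUnion Y' := by
      intro z hz
      rw [hX, Finset.mem_biUnion] at hz
      obtain ⟨j, -, hj⟩ := hz
      exact Finset.mem_biUnion.2 ⟨Fin.succ j, Finset.mem_univ _, hj⟩
    have hTTX' : TT ⊆ Finset.univ.biUnion Y' := by
      intro z hz
      exact Finset.mem_biUnion.2 ⟨0, Finset.mem_univ _, hz⟩
    have hU''U : U'' ⊆ U := sub_of_closed hU1 (Finset.disjoint_of_subset_right hXX' hU2)
      hcfg.closed (meet_of_big hcfg.big hU4)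
    have hU''T : Disjoint U'' TT := Finset.disjoint_of_subset_right hTTX' hU2
    have hlt : U''.card < U.card := by
      apply Finset.card_lt_card
      rw [Finset.ssubset_iff_of_subset hU''U]
      exact ⟨u, hWU hu, fun h => Finset.disjoint_left.1 hU''T h huTT⟩
    refine ih (U''.card * (t + 1) + (k + 1)) ?_ (k + 1) C' Y' U'' ?_ (by omega) rfl
    · rw [← hN]
      have h5 : (U''.card + 1) * (t + 1) ≤ U.card * (t + 1) := Nat.mul_le_mul_right _ hlt
      have h6 : (U''.card + 1) * (t + 1) = U''.card * (t + 1) + (t + 1) := by ring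
      omega
    refine ⟨hconn', hdisj', hadj', ?_, hcst', ?_, hU1, hU3, hU4⟩
    · intro j
      refine Fin.cases ?_ (fun j => ?_) j
      · exact Finset.Subset.refl _
      · exact hcfg.sub j
    · intro j
      refine Fin.cases ?_ (fun j => ?_) j
      · exact hU''T
      · exact Finset.disjoint_of_subset_left hU''U (hcfg.dU j)

theorem covey (hw : ∀ v, 1 ≤ w v) (cut : CutCond G w) (hV : 0 < Fintype.card V)
    (t P r : ℕ) (ht : 0 < t) (hr : 0 < r) (h1 : 5 * ((t + 1) * P) ≤ Fintype.card V)
    (h2 : ∀ v, t * r + w v ≤ P) (h3 : t * ∑ v, w v ^ 2 ≤ r * P) : KModel G t := by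
  obtain ⟨U, hU1, -, hU3, hU4⟩ := exists_big hw cut hV ∅ (by simp [cost])
  refine covey_step hw cut hV t P r ht hr h1 h2 h3 _ 0 (fun i => i.elim0) (fun i => i.elim0) U
    ⟨fun i => i.elim0, fun i => i.elim0, fun i => i.elim0, fun i => i.elim0, fun i => i.elim0,
      fun i => i.elim0, hU1, ?_, hU4⟩ ht rfl
  intro u hu v hv huv
  exact absurd (hU3 u hu v hv huv) (Finset.notMem_empty _)

end Pool.Agent.W128.PP
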