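import Mathlib

set_option autoImplicit false

namespace Pool.Agent.W128.PP

theorem numeric (t K n Q : ℕ) (hQ : Q = 800 * (t + 1) ^ 4 * (K + 1)) (hQn : Q < n) :
    ∃ P r : ℕ, 0 < r ∧ 5 * ((t + 1) * P) ≤ n ∧ (∀ x, Q * x ≤ 2 * n → t * r + x ≤ P) ∧
      ∀ s, Q * s ≤ 2 * n * ((K + 1) * n) → t * s ≤ r * P := by
  have hQpos : 0 < Q := by rw [hQ]; positivity
  obtain ⟨P, hP⟩ : ∃ P, P = n / (5 * (t + 1)) := ⟨_, rfl⟩
  obtain ⟨r, hr⟩ : ∃ r, r = P / (2 * (t + 1)) := ⟨_, rfl⟩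
  have hP1 : 5 * (t + 1) * P ≤ n := hP ▸ Nat.mul_div_le _ _
  have hP2 : n < 5 * (t + 1) * (P + 1) := by
    rw [hP]
    exact Nat.lt_mul_div_succ n (show 0 < 5 * (t + 1) by positivity)
  have hr1 : 2 * (t + 1) * r ≤ P := hr ▸ Nat.mul_div_le _ _
  have hr2 : P < 2 * (t + 1) * (r + 1) := by
    rw [hr]
    exact Nat.lt_mul_div_succ P (show 0 < 2 * (t + 1) by positivity)
  have hQbig : 800 * (t + 1) ^ 2 ≤ Q := by
    rw [hQ]
    have h1 : (t + 1) ^ 4 = (t + 1) ^ 2 * (t + 1) ^ 2 := by ring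
    have h2 : 1 ≤ (t + 1) ^ 2 := Nat.one_le_pow _ _ (Nat.succ_pos t)
    calc 800 * (t + 1) ^ 2 = 800 * ((t + 1) ^ 2 * 1) * 1 := by ring
      _ ≤ 800 * ((t + 1) ^ 2 * (t + 1) ^ 2) * (K + 1) := by
          apply Nat.mul_le_mul _ (Nat.succ_le_succ (Nat.zero_le K))
          exact Nat.mul_le_mul_left _ (Nat.mul_le_mul_left _ h2)
      _ = _ := by rw [h1]
  clear hP hr
  have hPbig : 80 * (t + 1) ≤ P := by
    by_contra h
    push Not at h
    have h1 : n < 5 * (t + 1) * (80 * (t + 1) + 1) := lt_of_lt_of_le hP2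
      (Nat.mul_le_mul_left _ (by omega))
    have h2 : 5 * (t + 1) * (80 * (t + 1) + 1) = 400 * (t + 1) ^ 2 + 5 * (t + 1) := by ring
    have h3 : (t + 1) ≤ (t + 1) ^ 2 := by nlinarith
    omega
  have hrbig : 0 < r := by
    rcases Nat.eq_zero_or_pos r with h0 | h0
    · rw [h0] at hr2
      omega
    · exact h0
  have hnP : n ≤ 10 * (t + 1) * P := by
    have h1 : 5 * (t + 1) * (P + 1) = 5 * ((t + 1) * P) + 5 * (t + 1) := by ring
    have h2 : 10 * (t + 1) * P = 10 * ((t + 1) * P) := by ring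
    have h3 : (t + 1) * 1 ≤ (t + 1) * P := Nat.mul_le_mul_left _ (by omega)
    omega
  have hPr : P ≤ 4 * (t + 1) * r := by
    have h1 : 2 * (t + 1) * (r + 1) = 2 * ((t + 1) * r) + 2 * (t + 1) := by ring
    have h2 : 4 * (t + 1) * r = 4 * ((t + 1) * r) := by ring
    have h3 : (t + 1) * 1 ≤ (t + 1) * r := Nat.mul_le_mul_left _ (by omega)
    omega
  have hnr : n ≤ 40 * (t + 1) ^ 2 * r := by
    calc n ≤ 10 * (t + 1) * P := hnP
      _ ≤ 10 * (t + 1) * (4 * (t + 1) * r) := Nat.mul_le_mul_left _ hPr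
      _ = _ := by ring
  refine ⟨P, r, hrbig, ?_, ?_, ?_⟩
  · calc 5 * ((t + 1) * P) = 5 * (t + 1) * P := by ring
      _ ≤ n := hP1
  · intro x hx
    have h1 : Q * x ≤ 20 * (t + 1) * P := by
      calc Q * x ≤ 2 * n := hx
        _ ≤ 2 * (10 * (t + 1) * P) := Nat.mul_le_mul_left _ hnP
        _ = _ := by ring
    have h2 : 2 * x ≤ P := by
      by_contra h
      push Not at h
      have h3 : Q * P < 2 * (20 * (t + 1) * P) := by
        calc Q * P < Q * (2 * x) := Nat.mul_lt_mul_of_pos_left h hQpos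
          _ = 2 * (Q * x) := by ring
          _ ≤ 2 * (20 * (t + 1) * P) := Nat.mul_le_mul_left _ h1
      have h4 : 40 * (t + 1) ≤ Q := by
        have : (t + 1) ≤ (t + 1) ^ 2 := by nlinarith
        omega
      have h5 : 40 * (t + 1) * P ≤ Q * P := Nat.mul_le_mul_right _ h4
      have h6 : 2 * (20 * (t + 1) * P) = 40 * (t + 1) * P := by ring
      omega
    have h3 : 2 * (t * r) ≤ P := by
      refine le_trans ?_ hr1
      have : 2 * (t + 1) * r = 2 * (t * r) + 2 * r := by ring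
      omega
    omega
  · intro s hs
    have h1 : n * n ≤ (10 * (t + 1) * P) * (40 * (t + 1) ^ 2 * r) := Nat.mul_le_mul hnP hnr
    have h2 : Q * (t * s) ≤ Q * (r * P) := by
      calc Q * (t * s) = t * (Q * s) := by ring
        _ ≤ t * (2 * n * ((K + 1) * n)) := Nat.mul_le_mul_left _ hs
        _ = 2 * t * (K + 1) * (n * n) := by ring
        _ ≤ 2 * t * (K + 1) * ((10 * (t + 1) * P) * (40 * (t + 1) ^ 2 * r)) :=
            Nat.mul_le_mul_left _ h1
        _ = 800 * (t + 1) ^ 3 * (K + 1) * (r * P) * t := by ring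
        _ ≤ 800 * (t + 1) ^ 3 * (K + 1) * (r * P) * (t + 1) :=
            Nat.mul_le_mul_left _ (Nat.le_succ t)
        _ = Q * (r * P) := by rw [hQ]; ring
    exact Nat.le_of_mul_le_mul_left h2 hQpos

end Pool.Agent.W128.PP
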