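import Pool.Agent.Helper805.CHS.Density

set_option autoImplicit false
set_option linter.unusedSectionVars false
set_option linter.unnecessarySimpa false

namespace Pool.Agent.W128.PP

open Classical Finset

variable {V : Type} [Fintype V] (G : SimpleGraph V) (w : V → ℕ)

/-- connected vertex set -/
def Conn (S : Finset V) : Prop := (G.induce (S : Set V)).Connected

/-- all edges leaving `S` go to `X` -/
def Cl (S X : Finset V) : Prop := ∀ u ∈ S, ∀ v, v ∉ S → G.Adj u v → v ∈ X

/-- cost of a vertex set -/
noncomputable def cost (X : Finset V) : ℕ := ∑ x ∈ X, w x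

variable {G} {w}

lemma Conn.ne {S : Finset V} (h : Conn G S) : S.Nonempty := by
  unfold Conn at h
  obtain ⟨a⟩ := h.nonempty
  exact ⟨a.1, by simpa using a.2⟩

lemma cost_mono {X Y : Finset V} (h : X ⊆ Y) : cost w X ≤ cost w Y :=
  Finset.sum_le_sum_of_subset h

lemma cost_union_le (X Y : Finset V) : cost w (X ∪ Y) ≤ cost w X + cost w Y := by
  unfold cost
  rw [← Finset.sum_union_inter]
  exact Nat.le_add_right _ _

lemma cost_biUnion_le {ι : Type} (s : Finset ι) (Y : ι → Finset V) :
    cost w (s.biUnion Y) ≤ ∑ i ∈ s, cost w (Y i) := by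
  induction s using Finset.induction_on with
  | empty => simp [cost]
  | insert a s ha ih =>
    rw [Finset.biUnion_insert, Finset.sum_insert ha]
    exact (cost_union_le _ _).trans (Nat.add_le_add_left ih _)

lemma card_le_cost (hw : ∀ v, 1 ≤ w v) (X : Finset V) : X.card ≤ cost w X := by
  unfold cost
  calc X.card = ∑ x ∈ X, 1 := by simp
    _ ≤ _ := Finset.sum_le_sum (fun x _ => hw x)

/-- a connected set avoiding `X` which meets a closed set lies inside it -/
lemma sub_of_closed {W U X : Finset V} (hW : Conn G W) (hWX : Disjoint W X) (hU : Cl G U X)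
    (hne : ∃ a ∈ W, a ∈ U) : W ⊆ U := by
  obtain ⟨a, haW, haU⟩ := hne
  intro b hb
  by_contra hbU
  obtain ⟨p⟩ := hW.preconnected ⟨a, by simpa using haW⟩ ⟨b, by simpa using hb⟩
  obtain ⟨d, -, hd1, hd2⟩ := p.exists_boundary_dart {z | (z : V) ∈ U} haU hbU
  have hadj : G.Adj d.fst.1 d.snd.1 := by
    have := d.adj
    simpa using this
  have := hU d.fst.1 hd1 d.snd.1 hd2 hadj
  have h2 : (d.snd.1 : V) ∈ W := by simpa using d.snd.2
  exact Finset.disjoint_left.1 hWX h2 this

lemma conn_singleton (u : V) : Conn G {u} := by
  unfold Conn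
  have : Subsingleton (({u} : Finset V) : Set V) := by
    rw [Finset.coe_singleton]
    infer_instance
  have : Nonempty (({u} : Finset V) : Set V) := ⟨⟨u, by simp⟩⟩
  exact { preconnected := fun a b => by rw [Subsingleton.elim a b] }

/-- union of connected sets which share a vertex -/
lemma conn_of_patches {S : Finset V} (u : V) (hu : u ∈ S)
    (h : ∀ v ∈ S, ∃ T ⊆ S, u ∈ T ∧ v ∈ T ∧ Conn G T) : Conn G S := by
  unfold Conn
  apply SimpleGraph.induce_connected_of_patches u (by simpa using hu)
  intro v hv
  obtain ⟨T, hTS, huT, hvT, hT⟩ := h v (by simpa using hv)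
  exact ⟨(T : Set V), by exact_mod_cast hTS, by simpa using huT, by simpa using hvT,
    hT.preconnected _ _⟩

lemma conn_union_adj {S T : Finset V} (hS : Conn G S) (hT : Conn G T) {a b : V} (ha : a ∈ S)
    (hb : b ∈ T) (hab : G.Adj a b) : Conn G (S ∪ T) := by
  unfold Conn
  rw [Finset.coe_union]
  exact SimpleGraph.connected_induce_union hS.preconnected hT.preconnected
    (by simpa using ha) (by simpa using hb) hab

/-- the cut condition -/
def CutCond (G : SimpleGraph V) (w : V → ℕ) : Prop :=
  ∀ S X : Finset V, Cl G S X → min S.card (Fintype.card V - S.card) ≤ cost w X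

/-- existence of a big component -/
lemma exists_big (hw : ∀ v, 1 ≤ w v) (cut : CutCond G w) (hV : 0 < Fintype.card V)
    (X : Finset V) (hX : 5 * cost w X ≤ Fintype.card V) :
    ∃ U : Finset V, Conn G U ∧ Disjoint U X ∧ Cl G U X ∧ Fintype.card V < 2 * U.card := by
  set n := Fintype.card V with hn
  -- maximal closed set with at most half of the vertices
  set F : Finset (Finset V) := Finset.univ.filter
    (fun S => Disjoint S X ∧ Cl G S X ∧ 2 * S.card ≤ n) with hF
  have hFne : F.Nonempty := by
    refine ⟨∅, ?_⟩
    rw [hF, Finset.mem_filter]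
    refine ⟨Finset.mem_univ _, Finset.disjoint_empty_left _, ?_, by simp⟩
    intro u hu
    exact absurd hu (Finset.notMem_empty _)
  obtain ⟨S, hSF, hmax⟩ := Finset.exists_max_image F (fun S => S.card) hFne
  rw [hF, Finset.mem_filter] at hSF
  obtain ⟨-, hSX, hScl, hSn⟩ := hSF
  have hSc : S.card ≤ cost w X := by
    have := cut S X hScl
    have h2 : min S.card (n - S.card) = S.card := by
      apply min_eq_left
      omega
    rw [← hn, h2] at this
    exact this
  have hXc := card_le_cost hw X
  have hlt : (S ∪ X).card < n := by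
    have := Finset.card_union_le S X
    omega
  obtain ⟨v, hv⟩ : ∃ v, v ∉ S ∪ X := by
    by_contra hcon
    push Not at hcon
    have : S ∪ X = Finset.univ := by
      ext x
      simp only [Finset.mem_univ, iff_true]
      exact hcon x
    rw [this, Finset.card_univ] at hlt
    omega
  rw [Finset.mem_union, not_or] at hv
  obtain ⟨hvS, hvX⟩ := hv
  set C : Finset V := Finset.univ.filter (fun u => ∃ p : G.Walk v u, ∀ z ∈ p.support, z ∉ X)
    with hC
  have hmem : ∀ u, u ∈ C ↔ ∃ p : G.Walk v u, ∀ z ∈ p.support, z ∉ X := by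
    intro u
    rw [hC, Finset.mem_filter]
    simp
  have hvC : v ∈ C := by
    rw [hmem]
    exact ⟨SimpleGraph.Walk.nil, by simpa using hvX⟩
  have hCX : Disjoint C X := by
    rw [Finset.disjoint_left]
    intro u hu
    obtain ⟨p, hp⟩ := (hmem u).1 hu
    exact hp u p.end_mem_support
  have hCcl : Cl G C X := by
    intro u hu z hz huz
    by_contra hzX
    apply hz
    obtain ⟨p, hp⟩ := (hmem u).1 hu
    rw [hmem]
    refine ⟨p.concat huz, ?_⟩
    intro y hy
    rw [SimpleGraph.Walk.support_concat] at hy
    simp only [List.mem_append, List.mem_singleton] at hy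
    rcases hy with hy | hy
    · exact hp y hy
    · rw [hy]; exact hzX
  have hCconn : Conn G C := by
    apply conn_of_patches v hvC
    intro u hu
    obtain ⟨p, hp⟩ := (hmem u).1 hu
    refine ⟨p.support.toFinset, ?_, by simp, by simp, ?_⟩
    · intro z hz
      rw [List.mem_toFinset] at hz
      rw [hmem]
      refine ⟨p.takeUntil z hz, ?_⟩
      intro y hy
      exact hp y (p.support_takeUntil_subset_support hz hy)
    · unfold Conn
      have : ((p.support.toFinset : Finset V) : Set V) = {z | z ∈ p.support} := by
        ext z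
        simp
      rw [this]
      exact p.connected_induce_support
  have hCS : Disjoint C S := by
    rw [Finset.disjoint_left]
    intro u hu huS
    obtain ⟨p, hp⟩ := (hmem u).1 hu
    obtain ⟨d, hd, hd1, hd2⟩ := p.reverse.exists_boundary_dart (S : Set V)
      (by simpa using huS) (by simpa using hvS)
    have h1 := hScl d.fst (by simpa using hd1) d.snd (by simpa using hd2) d.adj
    have h2 : d.snd ∈ p.reverse.support := p.reverse.dart_snd_mem_support_of_mem_darts hd
    rw [SimpleGraph.Walk.support_reverse, List.mem_reverse] at h2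
    exact hp _ h2 h1
  refine ⟨C, hCconn, hCX, hCcl, ?_⟩
  by_contra hcon
  have hcon : 2 * C.card ≤ n := by omega
  have hCc : C.card ≤ cost w X := by
    have := cut C X hCcl
    have h2 : min C.card (n - C.card) = C.card := by
      apply min_eq_left
      omega
    rw [← hn, h2] at this
    exact this
  have hcard : (S ∪ C).card = S.card + C.card := Finset.card_union_of_disjoint hCS.symm
  have hUF : S ∪ C ∈ F := by
    rw [hF, Finset.mem_filter]
    refine ⟨Finset.mem_univ _, ?_, ?_, ?_⟩
    · rw [Finset.disjoint_union_left]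
      exact ⟨hSX, hCX⟩
    · intro u hu z hz huz
      rw [Finset.mem_union, not_or] at hz
      rcases Finset.mem_union.1 hu with hu | hu
      · exact hScl u hu z hz.1 huz
      · exact hCcl u hu z hz.2 huz
    · rw [hcard]
      omega
  have h3 := hmax _ hUF
  have h4 : 0 < C.card := Finset.card_pos.2 ⟨v, hvC⟩
  omega

end Pool.Agent.W128.PP
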