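import Pool.Agent.W128.PP.Basic

set_option autoImplicit false
set_option linter.unusedSectionVars false
set_option linter.unnecessarySimpa false

namespace Pool.Agent.W128.PP

open Classical Finset

variable {V : Type} [Fintype V] {G : SimpleGraph V} {w : V → ℕ}

/-- `v` is joined to `A` inside `U` by a connected set of cost at most `m` -/
def Rch (G : SimpleGraph V) (w : V → ℕ) (U A : Finset V) (m : ℕ) (v : V) : Prop :=
  ∃ T : Finset V, T ⊆ U ∧ Conn G T ∧ v ∈ T ∧ (∃ a ∈ A, a ∈ T) ∧ cost w T ≤ m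

lemma Rch.mono {U A : Finset V} {m m' : ℕ} {v : V} (h : Rch G w U A m v) (hm : m ≤ m') :
    Rch G w U A m' v := by
  obtain ⟨T, h1, h2, h3, h4, h5⟩ := h
  exact ⟨T, h1, h2, h3, h4, h5.trans hm⟩

lemma Rch.step {U A : Finset V} {m : ℕ} {u v : V} (h : Rch G w U A m u) (hv : v ∈ U)
    (huv : G.Adj u v) : Rch G w U A (m + w v) v := by
  obtain ⟨T, h1, h2, h3, ⟨a, haA, haT⟩, h5⟩ := h
  refine ⟨T ∪ {v}, ?_, ?_, ?_, ⟨a, haA, Finset.mem_union_left _ haT⟩, ?_⟩
  · exact Finset.union_subset h1 (Finset.singleton_subset_iff.2 hv)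
  · exact conn_union_adj h2 (conn_singleton v) h3 (Finset.mem_singleton_self v) huv
  · exact Finset.mem_union_right _ (Finset.mem_singleton_self v)
  · refine (cost_union_le _ _).trans ?_
    have : cost w {v} = w v := by simp [cost]
    omega

/-- a cheap level cut -/
lemma exists_level {U A : Finset V} (hAU : A ⊆ U) (r : ℕ) (hr : 0 < r) :
    ∃ Z D : Finset V, Z ⊆ U ∧ r * cost w Z ≤ ∑ v, w v ^ 2 ∧
      (∀ a ∈ A, a ∈ D ∨ a ∈ Z) ∧ Cl G D (Z ∪ (Finset.univ \ U)) ∧
      ∀ u ∈ D, ∃ T : Finset V, T ⊆ U ∧ Conn G T ∧ u ∈ T ∧ (∃ a ∈ A, a ∈ T) ∧ cost w T ≤ r := by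
  set Z : ℕ → Finset V := fun m => U.filter
    (fun v => ¬ Rch G w U A m v ∧ Rch G w U A (m + w v) v) with hZ
  have hmemZ : ∀ m v, v ∈ Z m ↔ v ∈ U ∧ ¬ Rch G w U A m v ∧ Rch G w U A (m + w v) v := by
    intro m v
    rw [hZ, Finset.mem_filter]
  have hcount : ∀ v : V, ((Finset.range r).filter (fun m => v ∈ Z m)).card ≤ w v := by
    intro v
    by_cases hne : ((Finset.range r).filter (fun m => v ∈ Z m)).Nonempty
    · obtain ⟨m0, hm0, hmin⟩ := Finset.exists_min_image _ (fun m => m) hne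
      rw [Finset.mem_filter] at hm0
      have hm0' := ((hmemZ m0 v).1 hm0.2).2.2
      have hsub : (Finset.range r).filter (fun m => v ∈ Z m) ⊆ Finset.Ico m0 (m0 + w v) := by
        intro m hm
        rw [Finset.mem_Ico]
        refine ⟨hmin m hm, ?_⟩
        by_contra hcon
        rw [Finset.mem_filter] at hm
        exact ((hmemZ m v).1 hm.2).2.1 (hm0'.mono (by omega))
      have := Finset.card_le_card hsub
      rw [Nat.card_Ico] at this
      omega
    · rw [Finset.not_nonempty_iff_eq_empty] at hne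
      rw [hne]
      simp
  have hsum : ∑ m ∈ Finset.range r, cost w (Z m) ≤ ∑ v, w v ^ 2 := by
    have h1 : ∀ m, cost w (Z m) = ∑ v, if v ∈ Z m then w v else 0 := by
      intro m
      unfold cost
      rw [← Finset.sum_filter]
      congr 1
      ext v
      simp
    calc ∑ m ∈ Finset.range r, cost w (Z m)
        = ∑ m ∈ Finset.range r, ∑ v, (if v ∈ Z m then w v else 0) :=
          Finset.sum_congr rfl (fun m _ => h1 m)
      _ = ∑ v, ∑ m ∈ Finset.range r, (if v ∈ Z m then w v else 0) := Finset.sum_comm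
      _ ≤ ∑ v, w v ^ 2 := by
          apply Finset.sum_le_sum
          intro v _
          rw [← Finset.sum_filter, Finset.sum_const, smul_eq_mul, pow_two]
          exact Nat.mul_le_mul_right _ (hcount v)
  obtain ⟨m, hm, hmin⟩ := Finset.exists_min_image (Finset.range r) (fun m => cost w (Z m))
    ⟨0, Finset.mem_range.2 hr⟩
  have hmr : r * cost w (Z m) ≤ ∑ v, w v ^ 2 := by
    refine le_trans ?_ hsum
    calc r * cost w (Z m) = ∑ m' ∈ Finset.range r, cost w (Z m) := by
          rw [Finset.sum_const, Finset.card_range, smul_eq_mul]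
      _ ≤ _ := Finset.sum_le_sum (fun m' hm' => hmin m' hm')
  refine ⟨Z m, U.filter (fun v => Rch G w U A m v), ?_, hmr, ?_, ?_, ?_⟩
  · intro v hv
    exact ((hmemZ m v).1 hv).1
  · intro a ha
    by_cases h : Rch G w U A m a
    · left
      rw [Finset.mem_filter]
      exact ⟨hAU ha, h⟩
    · right
      rw [hmemZ]
      refine ⟨hAU ha, h, {a}, Finset.singleton_subset_iff.2 (hAU ha), conn_singleton a,
        Finset.mem_singleton_self a, ⟨a, ha, Finset.mem_singleton_self a⟩, ?_⟩
      simp [cost]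
  · intro u hu v hv huv
    rw [Finset.mem_filter] at hu
    rw [Finset.mem_union, Finset.mem_sdiff]
    by_cases hvU : v ∈ U
    · left
      rw [hmemZ]
      refine ⟨hvU, ?_, hu.2.step hvU huv⟩
      intro h
      exact hv (Finset.mem_filter.2 ⟨hvU, h⟩)
    · right
      exact ⟨Finset.mem_univ _, hvU⟩
  · intro u hu
    rw [Finset.mem_filter] at hu
    obtain ⟨T, h1, h2, h3, h4, h5⟩ := hu.2
    rw [Finset.mem_range] at hm
    exact ⟨T, h1, h2, h3, h4, by omega⟩

end Pool.Agent.W128.PP
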